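import Pool.Agent.Run7.h429.MR.General

/-!
# Sets of ordinals in Magidor-Radin extensions with `o κ = κ⁺`

Every set of ordinals in the extension is added by a bounded part of the generic sequence, or
computes all the points of the generic sequence in a set `X` which has measure one for a tail
of the measures on `κ`.
-/

open Run7.h429.MR Set

universe u w

theorem Pool.Agent.Results.MP_78d8b6_lc.TailDichotomy.result {κ : Ordinal.{u}}
    (M : CoherentSeq κ) (ho : M.o κ = (Order.succ κ.card).ord) {ι : Type w}
    (A : ι → Set (Cond M)) (hA : ∀ i, IsSentence (A i)) (p : Cond M) :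
    ∃ q ≤ p, (∃ ν < κ, Computes q (fun μ : Iic ν => club M μ) A) ∨
      (∃ ξ < M.o κ, ∃ X : Set Ordinal.{u}, (∀ ζ, ξ ≤ ζ → ζ < M.o κ → X ∈ M.U κ ζ) ∧
        Computes q A (fun α : X => club M α)) := by
  have hκ : 0 < M.o κ := by
    rw [ho, Cardinal.lt_ord, Ordinal.card_zero]
    exact lt_of_le_of_lt bot_le (Order.lt_succ κ.card)
  exact dichotomy hκ ho hA p
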